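import Pool.Agent.Helper7.EC_E.GoalsR

/-!
# MP_ecc237_nt, PART E, packet CC: partial fractions and the cotangent
-/

set_option autoImplicit false

open Filter Topology Complex

namespace EC237.ZE.PkCC

lemma hs_congr {f g : ℤ → ℂ} {a b : ℂ} (h : HasSum f a) (hf : ∀ j, g j = f j) (hb : b = a) :
    HasSum g b := by
  have : g = f := funext hf
  rw [this, hb]; exact h

lemma compl_of {τ : ℂ} (h : ∀ j : ℤ, τ + (j:ℂ) ≠ 0) : τ ∈ Complex.integerComplement := by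
  rw [Complex.mem_integerComplement_iff]
  rintro ⟨n, hn⟩
  apply h (-n)
  rw [← hn]; push_cast; ring

lemma hasSum_cot {τ : ℂ} (h : τ ∈ Complex.integerComplement) :
    HasSum (fun n : ℕ => 1 / (τ - (n + 1)) + 1 / (τ + (n + 1))) (Real.pi * Complex.cot (Real.pi * τ) - 1 / τ) := by
  have h1 := cot_series_rep' h
  rw [h1]
  exact (summable_cotTerm h).hasSum

lemma summ_pf (τ1 τ2 : ℂ) :
    Summable (fun j : ℤ => ((τ1 + (j:ℂ)) * (τ2 - (j:ℂ)))⁻¹) := by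
  apply EisensteinSeries.summable_inv_of_isBigO_rpow_inv (a := 2) (by norm_num)
  have h1 := EisensteinSeries.linear_inv_isBigO_right 1 τ1
  have h2 := (EisensteinSeries.linear_inv_isBigO_right 1 τ2).comp_neg_int
  have h3 := h1.mul h2
  refine (h3.congr_left ?_).trans ?_
  · intro j
    simp only [Int.cast_one, one_mul, Int.cast_neg, mul_inv]
    rfl
  · apply Asymptotics.IsBigO.of_bound 1
    filter_upwards with j
    simp only [Int.cast_neg, norm_mul, norm_inv, norm_neg, one_mul, Real.norm_eq_abs]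
    rw [← mul_inv, abs_mul_abs_self]
    simp [pow_two]

lemma core {τ1 τ2 : ℂ} (h1 : ∀ j : ℤ, τ1 + (j:ℂ) ≠ 0) (h2 : ∀ j : ℤ, τ2 - (j:ℂ) ≠ 0) :
    HasSum (fun j : ℤ => 1 / (τ1 + (j:ℂ)) + 1 / (τ2 - (j:ℂ)))
      (Real.pi * Complex.cot (Real.pi * τ1) + Real.pi * Complex.cot (Real.pi * τ2)) := by
  have h2' : ∀ j : ℤ, τ2 + (j:ℂ) ≠ 0 := by
    intro j
    have := h2 (-j)
    simpa [sub_eq_add_neg] using this
  have hs : Summable (fun j : ℤ => 1 / (τ1 + (j:ℂ)) + 1 / (τ2 - (j:ℂ))) := by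
    have := (summ_pf τ1 τ2).mul_left (τ1 + τ2)
    refine this.congr ?_
    intro j
    have ha := h1 j
    have hb := h2 j
    field_simp
    ring
  obtain ⟨a, ha⟩ := hs
  have hb := ha.nat_add_neg
  have hc := (hasSum_nat_add_iff' 1).mpr hb
  have hd := (hasSum_cot (compl_of h1)).add (hasSum_cot (compl_of h2'))
  have hcd : (fun n : ℕ => 1 / (τ1 + (((n + 1 : ℕ) : ℤ) : ℂ)) + 1 / (τ2 - (((n + 1 : ℕ) : ℤ) : ℂ)) +
      (1 / (τ1 + ((-((n + 1 : ℕ) : ℤ) : ℤ) : ℂ)) + 1 / (τ2 - ((-((n + 1 : ℕ) : ℤ) : ℤ) : ℂ)))) =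
      fun b : ℕ => 1 / (τ1 - (↑b + 1)) + 1 / (τ1 + (↑b + 1)) + (1 / (τ2 - (↑b + 1)) + 1 / (τ2 + (↑b + 1))) := by
    funext n
    push_cast
    ring
  rw [hcd] at hc
  have he := hc.unique hd
  convert ha using 1
  simp at he
  linear_combination -he

/-- scaled version -/
lemma core6 {c m : ℤ} {ξ1 ξ2 : ℂ} (hX : ∀ j : ℤ, 6 * (j:ℂ) + (c:ℂ) + ξ1 ≠ 0)
    (hY : ∀ j : ℤ, (m:ℂ) - (c:ℂ) - 6 * (j:ℂ) + ξ2 ≠ 0) :
    HasSum (fun j : ℤ => 1 / (6 * (j:ℂ) + c + ξ1) + 1 / ((m:ℂ) - c - 6 * j + ξ2))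
      (Sf 1 c ξ1 + Sf 1 (m - c) ξ2) := by
  have h1 : ∀ j : ℤ, ((c:ℂ) + ξ1) / 6 + (j:ℂ) ≠ 0 := by
    intro j h
    apply hX j
    linear_combination 6 * h
  have h2 : ∀ j : ℤ, ((m:ℂ) - c + ξ2) / 6 - (j:ℂ) ≠ 0 := by
    intro j h
    apply hY j
    linear_combination 6 * h
  have h3 := (core h1 h2).mul_left (1 / 6 : ℂ)
  have hfun : (fun j : ℤ => 1 / (6 * (j:ℂ) + c + ξ1) + 1 / ((m:ℂ) - c - 6 * j + ξ2)) =
      fun j : ℤ => (1 / 6 : ℂ) * (1 / (((c:ℂ) + ξ1) / 6 + (j:ℂ)) + 1 / (((m:ℂ) - c + ξ2) / 6 - (j:ℂ))) := by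
    funext j
    have e1 : 6 * (j:ℂ) + c + ξ1 = 6 * (((c:ℂ) + ξ1) / 6 + (j:ℂ)) := by ring
    have e2 : (m:ℂ) - c - 6 * j + ξ2 = 6 * (((m:ℂ) - c + ξ2) / 6 - (j:ℂ)) := by ring
    rw [e1, e2]
    have a1 := h1 j
    have a2 := h2 j
    generalize ((c:ℂ) + ξ1) / 6 + (j:ℂ) = A at a1 ⊢
    generalize ((m:ℂ) - c + ξ2) / 6 - (j:ℂ) = B at a2 ⊢
    field_simp
  rw [hfun]
  refine hs_congr h3 (fun _ => rfl) ?_
  unfold Sf
  simp only [if_true]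
  push_cast
  rw [show (Real.pi:ℂ) * ((c:ℂ) + ξ1) / 6 = Real.pi * (((c:ℂ) + ξ1) / 6) by ring,
    show (Real.pi:ℂ) * ((m:ℂ) - c + ξ2) / 6 = Real.pi * (((m:ℂ) - c + ξ2) / 6) by ring]
  ring

lemma sumS (r : ℕ) (hr : 2 ≤ r) (c : ℤ) (ξ : ℂ) :
    HasSum (fun j : ℤ => 1 / (6 * (j:ℂ) + (c:ℂ) + ξ) ^ r) (Sf r c ξ) := by
  have hs : Summable (fun j : ℤ => 1 / (6 * (j:ℂ) + (c:ℂ) + ξ) ^ r) := by
    have h := (EisensteinSeries.linear_right_summable (((c:ℂ) + ξ) / 6) 1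
      (k := (r:ℤ)) (by exact_mod_cast hr)).mul_left ((1 / 6 : ℂ) ^ r)
    refine h.congr ?_
    intro j
    rw [show 6 * (j:ℂ) + (c:ℂ) + ξ = 6 * (((1:ℤ):ℂ) * (((c:ℂ) + ξ) / 6) + (j:ℂ)) by push_cast; ring]
    rw [mul_pow, zpow_natCast]
    simp [div_eq_mul_inv, inv_pow]
    ring
  have : Sf r c ξ = ∑' j : ℤ, 1 / (6 * (j:ℂ) + (c:ℂ) + ξ) ^ r := by
    unfold Sf
    rw [if_neg (by omega)]
  rw [this]
  exact hs.hasSum

lemma sumS' (r : ℕ) (hr : 2 ≤ r) (c m : ℤ) (ξ : ℂ) :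
    HasSum (fun j : ℤ => 1 / ((m:ℂ) - c - 6 * j + ξ) ^ r) (Sf r (m - c) ξ) := by
  have h := sumS r hr (m - c) ξ
  rw [← (Equiv.neg ℤ).hasSum_iff] at h
  convert h using 1
  funext j
  simp only [Function.comp, Equiv.neg_apply]
  push_cast
  ring_nf

theorem thm : EC237.ZE.G_CC := by
  intro c m ξ1 ξ2 hX hY
  have h1 := core6 hX hY
  have hD : ∀ j : ℤ, (6 * (j:ℂ) + c + ξ1) + ((m:ℂ) - c - 6 * j + ξ2) = (m:ℂ) + ξ1 + ξ2 := by
    intro j; ring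
  refine ⟨fun hne => ⟨?_, ?_, ?_, ?_⟩, fun h0 => ⟨?_, ?_⟩⟩
  · have := h1.div_const ((m:ℂ) + ξ1 + ξ2)
    refine hs_congr this (fun j => ?_) rfl
    have a := hX j
    have b := hY j
    have d := hD j
    generalize 6 * (j:ℂ) + c + ξ1 = X at a d ⊢
    generalize (m:ℂ) - c - 6 * j + ξ2 = Y at b d ⊢
    rw [← d] at hne ⊢
    field_simp
    ring
  · have := ((sumS 2 le_rfl c ξ1).div_const ((m:ℂ) + ξ1 + ξ2)).add
      (h1.div_const (((m:ℂ) + ξ1 + ξ2) ^ 2))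
    refine hs_congr this (fun j => ?_) rfl
    have a := hX j
    have b := hY j
    have d := hD j
    generalize 6 * (j:ℂ) + c + ξ1 = X at a d ⊢
    generalize (m:ℂ) - c - 6 * j + ξ2 = Y at b d ⊢
    rw [← d] at hne ⊢
    field_simp
    ring
  · have := ((sumS' 2 le_rfl c m ξ2).div_const ((m:ℂ) + ξ1 + ξ2)).add
      (h1.div_const (((m:ℂ) + ξ1 + ξ2) ^ 2))
    refine hs_congr this (fun j => ?_) rfl
    have a := hX j
    have b := hY j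
    have d := hD j
    generalize 6 * (j:ℂ) + c + ξ1 = X at a d ⊢
    generalize (m:ℂ) - c - 6 * j + ξ2 = Y at b d ⊢
    rw [← d] at hne ⊢
    field_simp
    ring
  · have := ((((sumS 3 (by norm_num) c ξ1).add (sumS' 3 (by norm_num) c m ξ2)).div_const
      ((m:ℂ) + ξ1 + ξ2)).add ((((sumS 2 le_rfl c ξ1).add (sumS' 2 le_rfl c m ξ2)).mul_left 2).div_const
      (((m:ℂ) + ξ1 + ξ2) ^ 2))).add ((h1.mul_left 4).div_const (((m:ℂ) + ξ1 + ξ2) ^ 3))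
    refine hs_congr this (fun j => ?_) rfl
    have a := hX j
    have b := hY j
    have d := hD j
    generalize 6 * (j:ℂ) + c + ξ1 = X at a d ⊢
    generalize (m:ℂ) - c - 6 * j + ξ2 = Y at b d ⊢
    rw [← d] at hne ⊢
    field_simp
    ring
  · have := (sumS 2 le_rfl c ξ1).neg
    refine hs_congr this (fun j => ?_) rfl
    have a := hX j
    have d := hD j
    have e : (m:ℂ) - c - 6 * j + ξ2 = -(6 * (j:ℂ) + c + ξ1) := by
      linear_combination h0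
    rw [e]
    field_simp
  · have := (sumS 4 (by norm_num) c ξ1).neg
    refine hs_congr this (fun j => ?_) rfl
    have a := hX j
    have e : (m:ℂ) - c - 6 * j + ξ2 = -(6 * (j:ℂ) + c + ξ1) := by
      linear_combination h0
    rw [e]
    generalize 6 * (j:ℂ) + c + ξ1 = X at a ⊢
    field_simp
    ring

end EC237.ZE.PkCC
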